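import Pool.Agent.Run7.h683.PE.P2

/-!
# Random bases: the digits of `t + z` and `t - z`
-/

set_option autoImplicit false

namespace Run7.h683.PE

open Finset Filter
open Run7.h683.AB

theorem single_family {z : ℝ} (hz : Transcendental ℚ z) :
    (∀ _ : Fin 1, IsAlgebraic (Algebra.adjoin ℤ ({z} : Set ℝ)) z) ∧
    ∀ (m : ℤ) (g : Fin 1 → ℤ), (m : ℝ) + ∑ i, (g i : ℝ) * z = 0 → g = 0 := by
  constructor
  · intro _
    exact isAlgebraic_algebraMap (⟨z, Algebra.subset_adjoin rfl⟩ : Algebra.adjoin ℤ ({z} : Set ℝ))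
  · intro m g h
    rw [Fin.sum_univ_one] at h
    by_contra hne
    have hg : g 0 ≠ 0 := by
      intro h0
      apply hne
      funext i
      rw [Subsingleton.elim i 0]
      exact h0
    apply hz
    have hz2 : z = ((-(m : ℚ) / (g 0 : ℚ) : ℚ) : ℝ) := by
      push_cast
      have h8 : ((g 0 : ℤ) : ℝ) ≠ 0 := by exact_mod_cast hg
      rw [eq_div_iff h8]
      linarith
    rw [hz2]
    exact isAlgebraic_algebraMap (-(m : ℚ) / (g 0 : ℚ))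

/-- pairs of arrays as arrays on `Fin 1 ⊕ Fin 1` -/
theorem pair_card {K q : ℕ} (U V : Set (Fin K → Fin q)) :
    ({w : Fin 1 ⊕ Fin 1 → Fin K → Fin q | w (Sum.inl 0) ∈ U ∧ w (Sum.inr 0) ∈ V}).ncard ≤
      U.ncard * V.ncard := by
  have h : {w : Fin 1 ⊕ Fin 1 → Fin K → Fin q | w (Sum.inl 0) ∈ U ∧ w (Sum.inr 0) ∈ V} ⊆
      (fun p : (Fin K → Fin q) × (Fin K → Fin q) =>
        (Sum.elim (fun _ => p.1) (fun _ => p.2) : Fin 1 ⊕ Fin 1 → Fin K → Fin q)) '' (U ×ˢ V) := by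
    rintro w ⟨h1, h2⟩
    refine ⟨(w (Sum.inl 0), w (Sum.inr 0)), ⟨h1, h2⟩, ?_⟩
    funext i
    rcases i with i | i
    · rw [Subsingleton.elim i 0]
      rfl
    · rw [Subsingleton.elim i 0]
      rfl
  refine (Set.ncard_le_ncard h (Set.toFinite _)).trans ?_
  refine (Set.ncard_image_le (Set.toFinite _)).trans ?_
  rw [Set.ncard_prod]

theorem pair_bound {δ : ℝ} {z : ℝ} {C : ℕ}
    (h : ∀ᶠ B : ℕ in atTop, ∀ K q H : ℕ, 1 ≤ K → 1 ≤ q → 1 ≤ H → (K : ℝ) ≤ Real.log B ^ δ →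
      (q : ℝ) ≤ Real.exp (Real.log B ^ δ) → ∀ W : Set (Fin 1 ⊕ Fin 1 → Fin K → Fin q),
        ({b : ℕ | 0 < b ∧ b ≤ B ∧ b ∈ bad (fun _ : Fin 1 => z) H W}.ncard : ℝ) ≤
          B * (((C * H : ℕ) : ℝ) ^ (C * K) * W.ncard / (q : ℝ) ^ (1 * K) +
            2 * Real.exp (-Real.sqrt (Real.log B))))
    (ε : ℝ) (hε : 0 < ε) :
    ∃ q0 : ℕ, ∀ᶠ B : ℕ in atTop, ∀ K q : ℕ, 1 ≤ K → q0 ≤ q → (K : ℝ) ≤ Real.log B ^ δ →
      (q : ℝ) ≤ Real.exp (Real.log B ^ δ) → ∀ U V : Set (Fin K → Fin q),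
        (U.ncard : ℝ) * V.ncard ≤ (q : ℝ) ^ ((1 - ε) * K) →
        ({b : ℕ | 0 < b ∧ b ≤ B ∧ ∃ t : ℝ,
          (∃ u ∈ U, ∀ j : Fin K, q * digit b (t + z) ((j : ℕ) + 2) / b = u j) ∧
          (∃ v ∈ V, ∀ j : Fin K, q * digit b (t - z) ((j : ℕ) + 2) / b = v j)}.ncard : ℝ) ≤
          B * ((q : ℝ) ^ (-(ε / 2) * K) + 2 * Real.exp (-Real.sqrt (Real.log B))) := by
  classical
  obtain ⟨q1, hq1⟩ : ∃ q1 : ℕ, ((C : ℝ) ^ C) ^ (2 / ε) ≤ q1 := exists_nat_ge _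
  refine ⟨q1 + 1, ?_⟩
  filter_upwards [h] with B hB K q hK hq hKB hqB U V hUV
  have hqpos : 1 ≤ q := by omega
  have hq0 : (0 : ℝ) < q := by exact_mod_cast hqpos
  have hCq : ((C : ℝ) ^ C) ≤ (q : ℝ) ^ (ε / 2) := by
    have h1 : ((C : ℝ) ^ C) ^ (2 / ε) ≤ q := hq1.trans (by exact_mod_cast (by omega : q1 ≤ q))
    have h2 : (((C : ℝ) ^ C) ^ (2 / ε)) ^ (ε / 2) ≤ (q : ℝ) ^ (ε / 2) :=
      Real.rpow_le_rpow (by positivity) h1 (by positivity)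
    rw [← Real.rpow_mul (by positivity)] at h2
    have h3 : 2 / ε * (ε / 2) = 1 := by field_simp
    rw [h3, Real.rpow_one] at h2
    exact h2
  obtain ⟨W, hW⟩ : ∃ W : Set (Fin 1 ⊕ Fin 1 → Fin K → Fin q),
      W = {w | w (Sum.inl 0) ∈ U ∧ w (Sum.inr 0) ∈ V} := ⟨_, rfl⟩
  have hWc : (W.ncard : ℝ) ≤ (q : ℝ) ^ ((1 - ε) * K) := by
    refine le_trans ?_ hUV
    rw [hW]
    exact_mod_cast pair_card U V
  have hmain := hB K q 1 hK hqpos le_rfl hKB hqB W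
  have hsub : {b : ℕ | 0 < b ∧ b ≤ B ∧ ∃ t : ℝ,
      (∃ u ∈ U, ∀ j : Fin K, q * digit b (t + z) ((j : ℕ) + 2) / b = u j) ∧
      (∃ v ∈ V, ∀ j : Fin K, q * digit b (t - z) ((j : ℕ) + 2) / b = v j)} ⊆
      {b : ℕ | 0 < b ∧ b ≤ B ∧ b ∈ bad (fun _ : Fin 1 => z) 1 W} := by
    rintro b ⟨hb0, hbB, t, ⟨u, hu, h1⟩, v, hv, h2⟩
    refine ⟨hb0, hbB, fun _ => t, Matrix.fromBlocks 1 1 1 (-1), 0, 1, ?_, ?_, ?_,
      Sum.elim (fun _ => u) (fun _ => v), ?_, ?_⟩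
    · rw [Matrix.det_fromBlocks_one₁₁, Matrix.det_fin_one]
      simp
    · intro i j
      rcases i with i | i <;> rcases j with j | j <;>
        simp [Matrix.one_apply, Subsingleton.elim i j]
    · intro i
      simp
    · rw [hW]
      exact ⟨hu, hv⟩
    · intro i j
      rcases i with i | i
      · have h3 : (∑ k : Fin 1, ((Matrix.fromBlocks 1 1 1 (-1) : Matrix (Fin 1 ⊕ Fin 1) (Fin 1 ⊕ Fin 1) ℤ)
            (Sum.inl i) (Sum.inl k) : ℝ) * t + ∑ l : Fin 1, ((Matrix.fromBlocks 1 1 1 (-1) :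
            Matrix (Fin 1 ⊕ Fin 1) (Fin 1 ⊕ Fin 1) ℤ) (Sum.inl i) (Sum.inr l) : ℝ) * z +
            ((0 : Fin 1 ⊕ Fin 1 → ℤ) (Sum.inl i) : ℝ)) / ((1 : Fin 1 ⊕ Fin 1 → ℤ) (Sum.inl i) : ℝ) =
            t + z := by
          simp [Matrix.one_apply, Subsingleton.elim i 0]
        rw [h3]
        exact h1 j
      · have h3 : (∑ k : Fin 1, ((Matrix.fromBlocks 1 1 1 (-1) : Matrix (Fin 1 ⊕ Fin 1) (Fin 1 ⊕ Fin 1) ℤ)
            (Sum.inr i) (Sum.inl k) : ℝ) * t + ∑ l : Fin 1, ((Matrix.fromBlocks 1 1 1 (-1) :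
            Matrix (Fin 1 ⊕ Fin 1) (Fin 1 ⊕ Fin 1) ℤ) (Sum.inr i) (Sum.inr l) : ℝ) * z +
            ((0 : Fin 1 ⊕ Fin 1 → ℤ) (Sum.inr i) : ℝ)) / ((1 : Fin 1 ⊕ Fin 1 → ℤ) (Sum.inr i) : ℝ) =
            t - z := by
          simp [Matrix.one_apply, Subsingleton.elim i 0]
          ring
        rw [h3]
        exact h2 j
  have hfin : {b : ℕ | 0 < b ∧ b ≤ B ∧ b ∈ bad (fun _ : Fin 1 => z) 1 W}.Finite := by
    refine (Finset.finite_toSet (Finset.range (B + 1))).subset ?_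
    rintro b ⟨_, h, _⟩
    rw [Finset.mem_coe, Finset.mem_range]
    omega
  have h1 : ({b : ℕ | 0 < b ∧ b ≤ B ∧ ∃ t : ℝ,
      (∃ u ∈ U, ∀ j : Fin K, q * digit b (t + z) ((j : ℕ) + 2) / b = u j) ∧
      (∃ v ∈ V, ∀ j : Fin K, q * digit b (t - z) ((j : ℕ) + 2) / b = v j)}.ncard : ℝ) ≤
      ({b : ℕ | 0 < b ∧ b ≤ B ∧ b ∈ bad (fun _ : Fin 1 => z) 1 W}.ncard : ℝ) := by
    exact_mod_cast Set.ncard_le_ncard hsub hfin
  refine (h1.trans hmain).trans ?_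
  refine mul_le_mul_of_nonneg_left (add_le_add_left ?_ _) (Nat.cast_nonneg B)
  rw [mul_one, one_mul, div_le_iff₀ (by positivity)]
  have hKe : (((C : ℕ) : ℝ)) ^ (C * K) ≤ (q : ℝ) ^ ((ε / 2) * K) := by
    rw [pow_mul, Real.rpow_mul hq0.le, Real.rpow_natCast]
    gcongr
  calc ((C : ℕ) : ℝ) ^ (C * K) * (W.ncard : ℝ) ≤ (q : ℝ) ^ ((ε / 2) * K) * (q : ℝ) ^ ((1 - ε) * K) := by
        gcongr
    _ = (q : ℝ) ^ (-(ε / 2) * K) * (q : ℝ) ^ K := by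
        rw [← Real.rpow_add hq0, ← Real.rpow_natCast (q : ℝ) K, ← Real.rpow_add hq0]
        congr 1
        ring

end Run7.h683.PE
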