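import Pool.Agent.Run7.h683.AB.M8

/-!
# Random bases: joint classes of digits of independent forms in arbitrary real numbers
-/

set_option autoImplicit false

namespace Run7.h683.PE

open Finset Filter
open Run7.h683.AB

theorem class_range (q b : ℕ) (y : ℝ) (j : ℕ) (hq : 1 ≤ q) (hqb : q ≤ b) :
    ((q * digit b y (j + 1) / b : ℕ) : ℝ) ≤ q * Int.fract (y * (b : ℝ) ^ j) ∧
    q * Int.fract (y * (b : ℝ) ^ j) < ((q * digit b y (j + 1) / b : ℕ) : ℝ) + 2 := by
  have hb : 1 ≤ b := hq.trans hqb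
  have hb0 : (0 : ℝ) < b := by exact_mod_cast hb
  have hq0 : (0 : ℝ) < q := by exact_mod_cast hq
  have hqb' : (q : ℝ) ≤ b := by exact_mod_cast hqb
  obtain ⟨t, ht⟩ : ∃ t, t = Int.fract (y * (b : ℝ) ^ j) := ⟨_, rfl⟩
  have h3 := digit_eq b y j hb
  rw [← ht] at h3 ⊢
  have h4 : ((digit b y (j + 1) : ℕ) : ℝ) = ((⌊(b : ℝ) * t⌋ : ℤ) : ℝ) := by exact_mod_cast h3
  have h5 : ((⌊(b : ℝ) * t⌋ : ℤ) : ℝ) ≤ b * t := Int.floor_le _
  have h6 : (b : ℝ) * t < ((⌊(b : ℝ) * t⌋ : ℤ) : ℝ) + 1 := Int.lt_floor_add_one _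
  rw [← h4] at h5 h6
  obtain ⟨w, hw⟩ : ∃ w, w = q * digit b y (j + 1) / b := ⟨_, rfl⟩
  rw [← hw]
  have h7 : w * b ≤ q * digit b y (j + 1) := by
    rw [hw]
    exact Nat.div_mul_le_self _ _
  have h8 : q * digit b y (j + 1) < (w + 1) * b := by
    rw [hw, mul_comm (_ + 1)]
    exact Nat.lt_mul_div_succ _ (by omega)
  have k7 : (w : ℝ) * b ≤ q * digit b y (j + 1) := by exact_mod_cast h7
  have k8 : (q : ℝ) * digit b y (j + 1) < (w + 1) * b := by exact_mod_cast h8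
  constructor
  · have h9 : (w : ℝ) * b ≤ (q * t) * b := by
      calc (w : ℝ) * b ≤ q * digit b y (j + 1) := k7
        _ ≤ q * (b * t) := by gcongr
        _ = (q * t) * b := by ring
    exact le_of_mul_le_mul_right h9 hb0
  · have h9 : (q * t) * b < (w + 2) * b := by
      calc (q * t) * b = q * (b * t) := by ring
        _ < q * (digit b y (j + 1) + 1) := by gcongr
        _ = q * digit b y (j + 1) + q := by ring
        _ < (w + 1) * b + b := by linarith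
        _ = (w + 2) * b := by ring
    exact lt_of_mul_lt_mul_right h9 hb0.le

/-- the entries of the adjugate of an integer matrix -/
theorem adj_le {ι : Type*} [Fintype ι] [DecidableEq ι] (A : Matrix ι ι ℤ) (H : ℕ) (hH : 1 ≤ H)
    (hA : ∀ i j, |A i j| ≤ H) (i j : ι) :
    |A.adjugate i j| ≤ (Fintype.card ι).factorial * (H : ℤ) ^ Fintype.card ι := by
  rw [Matrix.adjugate_apply]
  have h := Matrix.det_le (A := A.updateRow j (Pi.single i 1)) (abv := AbsoluteValue.abs)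
    (x := (H : ℤ)) (fun a b => by
      rw [Matrix.updateRow_apply]
      split_ifs with h
      · rw [Pi.single_apply]
        split_ifs
        · show |(1 : ℤ)| ≤ H
          rw [abs_one]
          exact_mod_cast hH
        · show |(0 : ℤ)| ≤ H
          rw [abs_zero]
          exact_mod_cast Nat.zero_le H
      · exact hA a b)
  rw [nsmul_eq_mul] at h
  exact h

theorem det_le' {ι : Type*} [Fintype ι] [DecidableEq ι] (A : Matrix ι ι ℤ) (H : ℕ)
    (hA : ∀ i j, |A i j| ≤ H) :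
    |A.det| ≤ (Fintype.card ι).factorial * (H : ℤ) ^ Fintype.card ι := by
  have h := Matrix.det_le (A := A) (abv := AbsoluteValue.abs) (x := (H : ℤ)) (fun a b => hA a b)
  rw [nsmul_eq_mul] at h
  exact h

section count

variable {ι κ : Type*} [Fintype ι] [Fintype κ] {K q : ℕ}

/-- the arrays `v` which are related to an array in `W` -/
def Rel (R : ℕ) (W : Set (ι → Fin K → Fin q)) : Set (κ → Fin K → Fin q) :=
  {v | ∃ w ∈ W, ∃ (D : ℤ) (a : κ → ι → ℤ) (E G : κ → Fin K → ℤ), D ≠ 0 ∧ |D| ≤ R ∧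
    (∀ l i, |a l i| ≤ R) ∧ (∀ l j, |E l j| ≤ R) ∧ (∀ l j, |G l j| ≤ R) ∧
    ∀ l j, D * (v l j : ℕ) = ∑ i, a l i * ((w i j : ℕ) : ℤ) + E l j + q * G l j}

theorem rel_card (R : ℕ) (W : Set (ι → Fin K → Fin q)) :
    (Rel (κ := κ) R W).ncard ≤
      (2 * R + 1) ^ (1 + Fintype.card κ * Fintype.card ι + 2 * (Fintype.card κ * K)) * W.ncard := by
  classical
  have hq : Rel (κ := κ) R W = ∅ ∨ (Rel (κ := κ) R W).Nonempty := Set.eq_empty_or_nonempty _
  rcases hq with he | ⟨v0, hv0⟩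
  · rw [he, Set.ncard_empty]
    exact Nat.zero_le _
  have hT : Fintype.card (Finset.Icc (-(R : ℤ)) R) = 2 * R + 1 := by
    rw [Fintype.card_coe, Int.card_Icc]
    omega
  have hmem : ∀ z : ℤ, |z| ≤ R → z ∈ Finset.Icc (-(R : ℤ)) R := fun z hz => by
    rw [Finset.mem_Icc]
    exact abs_le.1 hz
  -- the data
  let Data := (Finset.Icc (-(R : ℤ)) R) × (κ → ι → Finset.Icc (-(R : ℤ)) R) ×
    (κ → Fin K → Finset.Icc (-(R : ℤ)) R) × (κ → Fin K → Finset.Icc (-(R : ℤ)) R)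
  let P : (Data × (ι → Fin K → Fin q)) → (κ → Fin K → Fin q) → Prop := fun d v =>
    (d.1.1 : ℤ) ≠ 0 ∧ ∀ l j, (d.1.1 : ℤ) * (v l j : ℕ) =
      ∑ i, (d.1.2.1 l i : ℤ) * ((d.2 i j : ℕ) : ℤ) + (d.1.2.2.1 l j : ℤ) + q * (d.1.2.2.2 l j : ℤ)
  have huniq : ∀ d v v', P d v → P d v' → v = v' := by
    intro d v v' h h'
    funext l j
    have h1 := (h.2 l j).trans (h'.2 l j).symm
    have h2 := mul_left_cancel₀ h.1 h1
    exact Fin.ext (by exact_mod_cast h2)
  let f : (Data × (ι → Fin K → Fin q)) → (κ → Fin K → Fin q) := fun d =>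
    if h : ∃ v, P d v then h.choose else v0
  have hf : ∀ d v, P d v → f d = v := by
    intro d v h
    have hex : ∃ v, P d v := ⟨v, h⟩
    have h1 : f d = hex.choose := dif_pos hex
    rw [h1]
    exact huniq d _ _ hex.choose_spec h
  have hsub : Rel (κ := κ) R W ⊆ f '' ((Set.univ : Set Data) ×ˢ W) := by
    rintro v ⟨w, hw, D, a, E, G, hD, hDR, ha, hE, hG, hrel⟩
    refine ⟨⟨⟨⟨D, hmem D hDR⟩, fun l i => ⟨a l i, hmem _ (ha l i)⟩,
      fun l j => ⟨E l j, hmem _ (hE l j)⟩, fun l j => ⟨G l j, hmem _ (hG l j)⟩⟩, w⟩,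
      ⟨Set.mem_univ _, hw⟩, ?_⟩
    exact hf _ _ ⟨hD, hrel⟩
  refine (Set.ncard_le_ncard hsub (Set.toFinite _)).trans ?_
  refine (Set.ncard_image_le (Set.toFinite _)).trans ?_
  rw [Set.ncard_prod, Set.ncard_univ, Nat.card_eq_fintype_card]
  refine Nat.mul_le_mul_right _ (le_of_eq ?_)
  simp only [Data, Fintype.card_prod, Fintype.card_fun, hT, Fintype.card_fin]
  generalize 2 * R + 1 = u
  ring

end count

section arr

variable {n r : ℕ}

/-- the bases for which the classes of the digits of some independent forms in `t`, `x` form an array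
in `W` -/
def bad {K q : ℕ} (x : Fin r → ℝ) (H : ℕ) (W : Set (Fin n ⊕ Fin r → Fin K → Fin q)) : Set ℕ :=
  {b | ∃ (t : Fin n → ℝ) (A : Matrix (Fin n ⊕ Fin r) (Fin n ⊕ Fin r) ℤ) (c m : Fin n ⊕ Fin r → ℤ),
    A.det ≠ 0 ∧ (∀ i j, |A i j| ≤ H) ∧ (∀ i, 1 ≤ m i ∧ m i ≤ H) ∧ ∃ w ∈ W, ∀ i (j : Fin K),
      q * digit b ((∑ k, (A i (Sum.inl k) : ℝ) * t k + ∑ l, (A i (Sum.inr l) : ℝ) * x l + c i) / m i)
        ((j : ℕ) + 2) / b = w i j}

theorem bad_rel {K q : ℕ} (x : Fin r → ℝ) (H R : ℕ) (hH : 1 ≤ H)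
    (hR : R = 2 * ((n + r + 1) * ((n + r).factorial * H ^ (n + r + 1))))
    (W : Set (Fin n ⊕ Fin r → Fin K → Fin q)) (b : ℕ) (hq : 1 ≤ q) (hqb : q ≤ b)
    (hb : b ∈ bad x H W) :
    ∃ v ∈ Rel (κ := Fin r) R W, ∀ (l : Fin r) (j : Fin K),
      q * digit b (x l) ((j : ℕ) + 2) / b = v l j := by
  classical
  obtain ⟨t, A, c, m, hdet, hA, hm, w, hw, hword⟩ := hb
  have hb1 : 1 ≤ b := hq.trans hqb
  have hH' : (1 : ℤ) ≤ H := by exact_mod_cast hH
  obtain ⟨s, hs⟩ : ∃ s, s = n + r := ⟨_, rfl⟩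
  have hcard : Fintype.card (Fin n ⊕ Fin r) = s := by
    rw [Fintype.card_sum, Fintype.card_fin, Fintype.card_fin, hs]
  obtain ⟨U, hU⟩ : ∃ U : ℕ, U = s.factorial * H ^ (s + 1) := ⟨_, rfl⟩
  have hRU : R = 2 * ((s + 1) * U) := by rw [hR, hU, hs]
  obtain ⟨U0, hU0⟩ : ∃ U0 : ℤ, U0 = s.factorial * (H : ℤ) ^ s := ⟨_, rfl⟩
  have hU0n : 0 ≤ U0 := by rw [hU0]; positivity
  have hUU : U0 * H = U := by
    rw [hU, hU0]
    push_cast
    ring
  have hU0U : U0 ≤ U := by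
    rw [← hUU]
    nlinarith
  have hadj : ∀ i j, |A.adjugate i j| ≤ U0 := by
    intro i j
    have := adj_le A H hH hA i j
    rw [hcard] at this
    rw [hU0]
    exact this
  have hD : |A.det| ≤ U0 := by
    have := det_le' A H hA
    rw [hcard] at this
    rw [hU0]
    exact this
  obtain ⟨D, hDd⟩ : ∃ D : ℤ, D = A.det := ⟨_, rfl⟩
  rw [← hDd] at hdet hD
  obtain ⟨a, ha⟩ : ∃ a : Fin r → (Fin n ⊕ Fin r) → ℤ,
      a = fun l i => A.adjugate (Sum.inr l) i * m i := ⟨_, rfl⟩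
  have haU : ∀ l i, |a l i| ≤ U := by
    intro l i
    rw [ha, ← hUU]
    simp only
    rw [abs_mul]
    have h1 : |m i| ≤ H := by
      rw [abs_of_nonneg (by linarith [(hm i).1])]
      exact (hm i).2
    exact mul_le_mul (hadj _ _) h1 (abs_nonneg _) hU0n
  obtain ⟨y, hy⟩ : ∃ y : (Fin n ⊕ Fin r) → ℝ, y = fun i =>
      (∑ k, (A i (Sum.inl k) : ℝ) * t k + ∑ l, (A i (Sum.inr l) : ℝ) * x l + c i) / m i := ⟨_, rfl⟩
  have hadjm : ∀ l k, ∑ i, A.adjugate (Sum.inr l) i * A i k = if Sum.inr l = k then D else 0 := by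
    intro l k
    have h := congrFun (congrFun (Matrix.adjugate_mul A) (Sum.inr l)) k
    rw [Matrix.mul_apply, Matrix.smul_apply, Matrix.one_apply, smul_eq_mul, ← hDd] at h
    rw [h]
    split_ifs <;> simp
  -- the linear relations
  have hlin : ∀ l : Fin r, ∑ i, (a l i : ℝ) * y i =
      (D : ℝ) * x l + ((∑ i, A.adjugate (Sum.inr l) i * c i : ℤ) : ℝ) := by
    intro l
    have h1 : ∀ i, (a l i : ℝ) * y i = (A.adjugate (Sum.inr l) i : ℝ) *
        (∑ k, (A i (Sum.inl k) : ℝ) * t k + ∑ l, (A i (Sum.inr l) : ℝ) * x l + c i) := by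
      intro i
      have hmi : (m i : ℝ) ≠ 0 := by
        have := (hm i).1
        have h2 : m i ≠ 0 := by omega
        exact_mod_cast h2
      rw [ha, hy]
      push_cast
      field_simp
    simp only [h1]
    have h2 : ∀ i, (A.adjugate (Sum.inr l) i : ℝ) *
        (∑ k, (A i (Sum.inl k) : ℝ) * t k + ∑ l, (A i (Sum.inr l) : ℝ) * x l + c i) =
        ∑ k, ((A.adjugate (Sum.inr l) i * A i (Sum.inl k) : ℤ) : ℝ) * t k +
        ∑ k, ((A.adjugate (Sum.inr l) i * A i (Sum.inr k) : ℤ) : ℝ) * x k +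
        ((A.adjugate (Sum.inr l) i * c i : ℤ) : ℝ) := by
      intro i
      push_cast
      rw [mul_add, mul_add, Finset.mul_sum, Finset.mul_sum]
      congr 2
      · exact Finset.sum_congr rfl fun k _ => by ring
      · exact Finset.sum_congr rfl fun k _ => by ring
    simp only [h2]
    rw [Finset.sum_add_distrib, Finset.sum_add_distrib, Finset.sum_comm,
      Finset.sum_comm (f := fun i k => ((A.adjugate (Sum.inr l) i * A i (Sum.inr k) : ℤ) : ℝ) * x k)]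
    have h3 : ∀ k : Fin n, ∑ i, ((A.adjugate (Sum.inr l) i * A i (Sum.inl k) : ℤ) : ℝ) * t k = 0 := by
      intro k
      rw [← Finset.sum_mul, ← Int.cast_sum, hadjm, if_neg (by simp)]
      simp
    have h4 : ∀ k : Fin r, ∑ i, ((A.adjugate (Sum.inr l) i * A i (Sum.inr k) : ℤ) : ℝ) * x k =
        if l = k then (D : ℝ) * x k else 0 := by
      intro k
      rw [← Finset.sum_mul, ← Int.cast_sum, hadjm]
      by_cases hlk : l = k
      · rw [if_pos (by rw [hlk]), if_pos hlk]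
      · rw [if_neg (by simpa using hlk), if_neg hlk]
        simp
    simp only [h3, h4]
    rw [Finset.sum_const_zero, zero_add, Finset.sum_ite_eq, if_pos (Finset.mem_univ _), Int.cast_sum]
  -- the classes
  obtain ⟨v, hv⟩ : ∃ v : Fin r → Fin K → Fin q, v = fun l j =>
      ⟨q * digit b (x l) ((j : ℕ) + 2) / b, coarse_lt q b (x l) _ hq hb1⟩ := ⟨_, rfl⟩
  have hvval : ∀ l j, ((v l j : ℕ)) = q * digit b (x l) ((j : ℕ) + 2) / b := fun l j => by rw [hv]
  refine ⟨v, ?_, fun l j => (hvval l j).symm⟩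
  have hword' : ∀ i (j : Fin K), q * digit b (y i) ((j : ℕ) + 1 + 1) / b = w i j := by
    intro i j
    rw [hy]
    exact hword i j
  obtain ⟨G, hG⟩ : ∃ G : Fin r → Fin K → ℤ, G = fun l (j : Fin K) =>
      ∑ i, a l i * ⌊y i * (b : ℝ) ^ ((j : ℕ) + 1)⌋ - D * ⌊x l * (b : ℝ) ^ ((j : ℕ) + 1)⌋ -
        (∑ i, A.adjugate (Sum.inr l) i * c i) * (b : ℤ) ^ ((j : ℕ) + 1) := ⟨_, rfl⟩
  have hkey : ∀ l (j : Fin K), (D : ℝ) * Int.fract (x l * (b : ℝ) ^ ((j : ℕ) + 1)) -
      ∑ i, (a l i : ℝ) * Int.fract (y i * (b : ℝ) ^ ((j : ℕ) + 1)) = G l j := by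
    intro l j
    have h1 : ∑ i, (a l i : ℝ) * (y i * (b : ℝ) ^ ((j : ℕ) + 1)) =
        ((D : ℝ) * x l + ((∑ i, A.adjugate (Sum.inr l) i * c i : ℤ) : ℝ)) *
          (b : ℝ) ^ ((j : ℕ) + 1) := by
      rw [← hlin l, Finset.sum_mul]
      exact Finset.sum_congr rfl fun i _ => by ring
    have h2 : ∑ i, (a l i : ℝ) * (y i * (b : ℝ) ^ ((j : ℕ) + 1)) =
        ∑ i, (a l i : ℝ) * (⌊y i * (b : ℝ) ^ ((j : ℕ) + 1)⌋ : ℝ) +
        ∑ i, (a l i : ℝ) * Int.fract (y i * (b : ℝ) ^ ((j : ℕ) + 1)) := by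
      rw [← Finset.sum_add_distrib]
      refine Finset.sum_congr rfl fun i _ => ?_
      rw [← mul_add, Int.floor_add_fract]
    have h3 : (D : ℝ) * (x l * (b : ℝ) ^ ((j : ℕ) + 1)) =
        (D : ℝ) * (⌊x l * (b : ℝ) ^ ((j : ℕ) + 1)⌋ : ℝ) +
        (D : ℝ) * Int.fract (x l * (b : ℝ) ^ ((j : ℕ) + 1)) := by
      rw [← mul_add, Int.floor_add_fract]
    rw [hG]
    push_cast
    push_cast at h1
    linarith
  obtain ⟨E, hE⟩ : ∃ E : Fin r → Fin K → ℤ, E = fun l j =>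
      D * (v l j : ℕ) - ∑ i, a l i * ((w i j : ℕ) : ℤ) - q * G l j := ⟨_, rfl⟩
  have hq0 : (0 : ℝ) < q := by exact_mod_cast hq
  have hsum_card : (Finset.univ : Finset (Fin n ⊕ Fin r)).card = s := by
    rw [Finset.card_univ, hcard]
  have hDr : |(D : ℝ)| ≤ U := by
    have : |D| ≤ (U : ℤ) := hD.trans hU0U
    exact_mod_cast this
  have haUr : ∀ l i, |(a l i : ℝ)| ≤ U := by
    intro l i
    exact_mod_cast haU l i
  have hER : ∀ l j, |E l j| ≤ R := by
    intro l j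
    have h1 := class_range q b (x l) ((j : ℕ) + 1) hq hqb
    have h2 : ∀ i, ((w i j : ℕ) : ℝ) ≤ q * Int.fract (y i * (b : ℝ) ^ ((j : ℕ) + 1)) ∧
        q * Int.fract (y i * (b : ℝ) ^ ((j : ℕ) + 1)) < ((w i j : ℕ) : ℝ) + 2 := by
      intro i
      have := class_range q b (y i) ((j : ℕ) + 1) hq hqb
      rw [hword' i j] at this
      exact this
    have h3 : ((v l j : ℕ) : ℝ) ≤ q * Int.fract (x l * (b : ℝ) ^ ((j : ℕ) + 1)) ∧
        q * Int.fract (x l * (b : ℝ) ^ ((j : ℕ) + 1)) < ((v l j : ℕ) : ℝ) + 2 := by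
      rw [hvval]
      exact h1
    have h4 : (E l j : ℝ) =
        ∑ i, (a l i : ℝ) * (q * Int.fract (y i * (b : ℝ) ^ ((j : ℕ) + 1)) - ((w i j : ℕ) : ℝ)) -
        (D : ℝ) * (q * Int.fract (x l * (b : ℝ) ^ ((j : ℕ) + 1)) - ((v l j : ℕ) : ℝ)) := by
      rw [hE]
      push_cast
      rw [← hkey l j]
      simp only [mul_sub, Finset.sum_sub_distrib, Finset.mul_sum]
      have h5 : ∑ i, (q : ℝ) * ((a l i : ℝ) * Int.fract (y i * (b : ℝ) ^ ((j : ℕ) + 1))) =
          ∑ i, (a l i : ℝ) * ((q : ℝ) * Int.fract (y i * (b : ℝ) ^ ((j : ℕ) + 1))) :=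
        Finset.sum_congr rfl fun i _ => by ring
      rw [h5]
      ring
    have h5 : |(E l j : ℝ)| ≤ ∑ i : Fin n ⊕ Fin r, (U : ℝ) * 2 + U * 2 := by
      rw [h4]
      refine (abs_sub _ _).trans ?_
      refine add_le_add ((Finset.abs_sum_le_sum_abs _ _).trans (Finset.sum_le_sum fun i _ => ?_)) ?_
      · rw [abs_mul]
        refine mul_le_mul (haUr l i) ?_ (abs_nonneg _) (by positivity)
        rw [abs_le]
        constructor <;> linarith [(h2 i).1, (h2 i).2]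
      · rw [abs_mul]
        refine mul_le_mul hDr ?_ (abs_nonneg _) (by positivity)
        rw [abs_le]
        constructor <;> linarith [h3.1, h3.2]
    rw [Finset.sum_const, hsum_card, nsmul_eq_mul] at h5
    have h6 : |(E l j : ℝ)| ≤ ((R : ℕ) : ℝ) := by
      refine h5.trans (le_of_eq ?_)
      rw [hRU]
      push_cast
      ring
    exact_mod_cast h6
  have hGR : ∀ l j, |G l j| ≤ R := by
    intro l j
    have h5 : |(G l j : ℝ)| ≤ U * 1 + ∑ i : Fin n ⊕ Fin r, (U : ℝ) * 1 := by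
      rw [← hkey l j]
      refine (abs_sub _ _).trans ?_
      refine add_le_add ?_ ((Finset.abs_sum_le_sum_abs _ _).trans (Finset.sum_le_sum fun i _ => ?_))
      · rw [abs_mul]
        refine mul_le_mul hDr ?_ (abs_nonneg _) (by positivity)
        rw [abs_of_nonneg (Int.fract_nonneg _)]
        exact (Int.fract_lt_one _).le
      · rw [abs_mul]
        refine mul_le_mul (haUr l i) ?_ (abs_nonneg _) (by positivity)
        rw [abs_of_nonneg (Int.fract_nonneg _)]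
        exact (Int.fract_lt_one _).le
    rw [Finset.sum_const, hsum_card, nsmul_eq_mul] at h5
    have h6 : |(G l j : ℝ)| ≤ ((R : ℕ) : ℝ) := by
      refine h5.trans ?_
      rw [hRU]
      push_cast
      have : (0 : ℝ) ≤ (s + 1) * U := by positivity
      linarith
    exact_mod_cast h6
  have hUR : (U : ℤ) ≤ R := by
    rw [hRU]
    push_cast
    have h1 : (0 : ℤ) ≤ U := by positivity
    have h2 : (0 : ℤ) ≤ s := by positivity
    nlinarith [mul_nonneg h1 h2]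
  refine ⟨w, hw, D, a, E, G, hdet, (hD.trans hU0U).trans hUR, fun l i => (haU l i).trans hUR,
    hER, hGR, ?_⟩
  intro l j
  rw [hE]
  ring

end arr

end Run7.h683.PE
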