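import Pool.Agent.Run7.h683.PE.P1

/-!
# Random bases: joint classes of digits of independent forms, final form
-/

set_option autoImplicit false

namespace Run7.h683.PE

open Finset Filter
open Run7.h683.AB

/-- the constants -/
theorem const_bound (n r : ℕ) : ∃ C : ℕ, ∀ H K : ℕ, 1 ≤ H → 1 ≤ K →
    ((2 * (2 * ((n + r + 1) * ((n + r).factorial * H ^ (n + r + 1)))) + 1) ^
      (1 + Fintype.card (Fin r) * Fintype.card (Fin n ⊕ Fin r) + 2 * (Fintype.card (Fin r) * K)) : ℕ) ≤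
    (C * H) ^ (C * K) := by
  obtain ⟨c0, hc0⟩ : ∃ c0 : ℕ, c0 = 5 * ((n + r + 1) * (n + r).factorial) := ⟨_, rfl⟩
  obtain ⟨e, he⟩ : ∃ e : ℕ, e = 1 + r * (n + r) + 2 * r := ⟨_, rfl⟩
  have hc01 : 1 ≤ c0 := by
    rw [hc0]
    have := Nat.factorial_pos (n + r)
    have h2 : 0 < (n + r + 1) * (n + r).factorial := by positivity
    omega
  refine ⟨c0 + (n + r + 1) * e, fun H K hH hK => ?_⟩
  have h1 : 2 * (2 * ((n + r + 1) * ((n + r).factorial * H ^ (n + r + 1)))) + 1 ≤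
      (c0 * H) ^ (n + r + 1) := by
    have h2 : 1 ≤ (n + r + 1) * ((n + r).factorial * H ^ (n + r + 1)) := by
      have := Nat.factorial_pos (n + r)
      exact Nat.one_le_iff_ne_zero.2 (by positivity)
    calc 2 * (2 * ((n + r + 1) * ((n + r).factorial * H ^ (n + r + 1)))) + 1
        ≤ 5 * ((n + r + 1) * ((n + r).factorial * H ^ (n + r + 1))) := by omega
      _ = c0 * H ^ (n + r + 1) := by rw [hc0]; ring
      _ ≤ c0 ^ (n + r + 1) * H ^ (n + r + 1) := by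
          refine Nat.mul_le_mul_right _ ?_
          exact Nat.le_self_pow (by omega) c0
      _ = (c0 * H) ^ (n + r + 1) := (mul_pow _ _ _).symm
  have h3 : 1 + Fintype.card (Fin r) * Fintype.card (Fin n ⊕ Fin r) + 2 * (Fintype.card (Fin r) * K) ≤
      e * K := by
    rw [Fintype.card_sum, Fintype.card_fin, Fintype.card_fin, he]
    have h4 : 1 + r * (n + r) ≤ (1 + r * (n + r)) * K := Nat.le_mul_of_pos_right _ hK
    calc 1 + r * (n + r) + 2 * (r * K) ≤ (1 + r * (n + r)) * K + 2 * (r * K) := by omega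
      _ = (1 + r * (n + r) + 2 * r) * K := by ring
  have h5 : 1 ≤ (c0 * H) ^ (n + r + 1) := Nat.one_le_pow _ _ (by positivity)
  calc (2 * (2 * ((n + r + 1) * ((n + r).factorial * H ^ (n + r + 1)))) + 1) ^
      (1 + Fintype.card (Fin r) * Fintype.card (Fin n ⊕ Fin r) + 2 * (Fintype.card (Fin r) * K))
      ≤ ((c0 * H) ^ (n + r + 1)) ^
      (1 + Fintype.card (Fin r) * Fintype.card (Fin n ⊕ Fin r) + 2 * (Fintype.card (Fin r) * K)) :=
        Nat.pow_le_pow_left h1 _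
    _ ≤ ((c0 * H) ^ (n + r + 1)) ^ (e * K) := Nat.pow_le_pow_right h5 h3
    _ = (c0 * H) ^ ((n + r + 1) * e * K) := by rw [← pow_mul, mul_assoc]
    _ ≤ ((c0 + (n + r + 1) * e) * H) ^ ((n + r + 1) * e * K) := by
        apply Nat.pow_le_pow_left
        exact Nat.mul_le_mul_right _ (by omega)
    _ ≤ ((c0 + (n + r + 1) * e) * H) ^ ((c0 + (n + r + 1) * e) * K) := by
        apply Nat.pow_le_pow_right
        · positivity
        · exact Nat.mul_le_mul_right _ (by omega)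

theorem main_bound : ∃ δ : ℝ, 0 < δ ∧ ∀ (n r : ℕ), ∃ C : ℕ, ∀ x : Fin r → ℝ, Meas x →
    ∀ᶠ B : ℕ in atTop, ∀ K q H : ℕ, 1 ≤ K → 1 ≤ q → 1 ≤ H → (K : ℝ) ≤ Real.log B ^ δ →
      (q : ℝ) ≤ Real.exp (Real.log B ^ δ) → ∀ W : Set (Fin n ⊕ Fin r → Fin K → Fin q),
        ({b : ℕ | 0 < b ∧ b ≤ B ∧ b ∈ bad x H W}.ncard : ℝ) ≤
          B * (((C * H : ℕ) : ℝ) ^ (C * K) * W.ncard / (q : ℝ) ^ (r * K) +
            2 * Real.exp (-Real.sqrt (Real.log B))) := by
  classical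
  obtain ⟨δ0, hδ0, hrand⟩ := random_of_meas
  refine ⟨min δ0 (1 / 4), lt_min hδ0 (by norm_num), fun n r => ?_⟩
  obtain ⟨C, hC⟩ := const_bound n r
  refine ⟨C, fun x hx => ?_⟩
  have hlog : Tendsto (fun N : ℕ => Real.log (N : ℝ)) atTop atTop :=
    Real.tendsto_log_atTop.comp tendsto_natCast_atTop_atTop
  filter_upwards [(hrand r x hx).1, hlog.eventually (eventually_ge_atTop 16),
    eventually_ge_atTop 1] with B hB hL hB1 K q H hK hq hH hKB hqB W
  obtain ⟨L, hLd⟩ : ∃ L, L = Real.log B := ⟨_, rfl⟩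
  rw [← hLd] at hL hKB hqB hB ⊢
  have hL1 : 1 ≤ L := by linarith
  have hB0 : (0 : ℝ) < B := by exact_mod_cast hB1
  have hle : L ^ min δ0 (1 / 4) ≤ L ^ δ0 := Real.rpow_le_rpow_of_exponent_le hL1 (min_le_left _ _)
  have hle2 : L ^ min δ0 (1 / 4) ≤ Real.sqrt L := by
    rw [Real.sqrt_eq_rpow]
    exact Real.rpow_le_rpow_of_exponent_le hL1 ((min_le_right _ _).trans (by norm_num))
  have hsq : Real.sqrt L * Real.sqrt L = L := Real.mul_self_sqrt (by linarith)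
  have hs4 : 4 ≤ Real.sqrt L := by
    rw [show (4 : ℝ) = Real.sqrt 16 by
      rw [show (16 : ℝ) = 4 ^ 2 by norm_num, Real.sqrt_sq (by norm_num)]]
    exact Real.sqrt_le_sqrt hL
  have hBexp : Real.exp L = B := by rw [hLd, Real.exp_log hB0]
  have hqsmall : (q : ℝ) ≤ B * Real.exp (-Real.sqrt L) := by
    refine hqB.trans ?_
    rw [← hBexp, ← Real.exp_add]
    apply Real.exp_le_exp.2
    nlinarith
  obtain ⟨R, hR⟩ : ∃ R : ℕ, R = 2 * ((n + r + 1) * ((n + r).factorial * H ^ (n + r + 1))) := ⟨_, rfl⟩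
  obtain ⟨V, hV⟩ : ∃ V : Set (Fin r → Fin K → Fin q), V = Rel (κ := Fin r) R W := ⟨_, rfl⟩
  have hVc : (V.ncard : ℝ) ≤ ((C * H : ℕ) : ℝ) ^ (C * K) * W.ncard := by
    have h1 := rel_card (κ := Fin r) R W
    rw [← hV] at h1
    have h2 : V.ncard ≤ (C * H) ^ (C * K) * W.ncard := by
      refine h1.trans (Nat.mul_le_mul_right _ ?_)
      rw [hR]
      exact hC H K hH hK
    exact_mod_cast h2
  obtain ⟨S, hS⟩ : ∃ S : Set ℕ, S = {b : ℕ | 0 < b ∧ b ≤ B ∧ ∃ w ∈ V, ∀ (i : Fin r) (j : Fin K),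
          q * digit b (x i) ((j : ℕ) + 2) / b = w i j} := ⟨_, rfl⟩
  have hran := hB K q hq (hKB.trans hle) (hqB.trans (Real.exp_le_exp.2 hle)) V
  rw [← hS] at hran
  have hSb : (S.ncard : ℝ) ≤ B * (((C * H : ℕ) : ℝ) ^ (C * K) * W.ncard / (q : ℝ) ^ (r * K) +
      Real.exp (-Real.sqrt L)) := by
    have h1 := (abs_le.1 hran).2
    have h2 : (S.ncard : ℝ) / B ≤ (V.ncard : ℝ) / (q : ℝ) ^ (r * K) + Real.exp (-Real.sqrt L) := by
      linarith
    rw [div_le_iff₀ hB0, mul_comm] at h2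
    refine h2.trans ?_
    gcongr
  have hsub : {b : ℕ | 0 < b ∧ b ≤ B ∧ b ∈ bad x H W} ⊆ S ∪ ((Finset.range q : Finset ℕ) : Set ℕ) := by
    rintro b ⟨hb0, hbB, hbad⟩
    rcases Nat.lt_or_ge b q with hbq | hbq
    · right
      rw [Finset.mem_coe, Finset.mem_range]
      exact hbq
    · left
      rw [hS]
      refine ⟨hb0, hbB, ?_⟩
      obtain ⟨v, hv, h⟩ := bad_rel x H R hH hR W b hq hbq hbad
      exact ⟨v, by rw [hV]; exact hv, h⟩
  have hSfin : S.Finite := by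
    refine (Finset.finite_toSet (Finset.range (B + 1))).subset ?_
    rw [hS]
    rintro b ⟨_, h, _⟩
    rw [Finset.mem_coe, Finset.mem_range]
    omega
  have h1 : {b : ℕ | 0 < b ∧ b ≤ B ∧ b ∈ bad x H W}.ncard ≤ S.ncard + q := by
    refine (Set.ncard_le_ncard hsub (hSfin.union (Finset.finite_toSet _))).trans ?_
    refine (Set.ncard_union_le _ _).trans ?_
    rw [Set.ncard_coe_finset, Finset.card_range]
  have h2 : ({b : ℕ | 0 < b ∧ b ≤ B ∧ b ∈ bad x H W}.ncard : ℝ) ≤ S.ncard + q := by exact_mod_cast h1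
  calc ({b : ℕ | 0 < b ∧ b ≤ B ∧ b ∈ bad x H W}.ncard : ℝ) ≤ S.ncard + q := h2
    _ ≤ B * (((C * H : ℕ) : ℝ) ^ (C * K) * W.ncard / (q : ℝ) ^ (r * K) +
      Real.exp (-Real.sqrt L)) + B * Real.exp (-Real.sqrt L) := add_le_add hSb hqsmall
    _ = _ := by ring

end Run7.h683.PE
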